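import Pool.Agent.H7.GF.Targets3
import Pool.Agent.H7.GF.Basic

set_option autoImplicit false

namespace Pool.Agent.H69.GF

open Polynomial Pool.Agent.H7.GF

/-- the relation -/
def Rel4 (b u : ℤ) (a : Fin 3 → ℤ) : Prop :=
  (u ^ 2 - 4 * b) * (a 1 - u) = u * a 0 * a 2 - b * a 2 ^ 2 - a 0 ^ 2

lemma rel_sq {b u : ℤ} {a : Fin 3 → ℤ} (h : Rel4 b u a) :
    (2 * a 0 - u * a 2) ^ 2 = (u ^ 2 - 4 * b) * (a 2 ^ 2 - 4 * a 1 + 4 * u) := by
  rw [Rel4] at h
  linear_combination (4 : ℤ) * h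

lemma cnt_all (b u : ℤ) (H : ℕ) : cnt 3 H (Rel4 b u) ≤ (2 * (H : ℝ) + 1) ^ 2 := by
  classical
  have hcard : ((Finset.Icc (-(H : ℤ)) H) ×ˢ (Finset.Icc (-(H : ℤ)) H)).card = (2 * H + 1) ^ 2 := by
    rw [Finset.card_product, Int.card_Icc, sq]
    congr 1 <;> omega
  have key : {a | a ∈ box 3 H ∧ Rel4 b u a}.ncard ≤
      (((Finset.Icc (-(H : ℤ)) H) ×ˢ (Finset.Icc (-(H : ℤ)) H) : Finset (ℤ × ℤ)) :
        Set (ℤ × ℤ)).ncard := by
    by_cases hΔ : u ^ 2 - 4 * b = 0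
    · refine Set.ncard_le_ncard_of_injOn (fun a => (a 1, a 2)) ?_ ?_ (Finset.finite_toSet _)
      · rintro a ⟨ha, -⟩
        rw [mem_box] at ha
        simp only [Finset.coe_product, Finset.coe_Icc, Set.mem_prod, Set.mem_Icc]
        exact ⟨abs_le.1 (ha 1), abs_le.1 (ha 2)⟩
      · rintro a ⟨-, ha⟩ a' ⟨-, ha'⟩ h
        simp only [Prod.mk.injEq] at h
        have h1 := rel_sq ha
        have h2 := rel_sq ha'
        rw [hΔ, zero_mul] at h1 h2
        have h3 := pow_eq_zero_iff (two_ne_zero) |>.1 h1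
        have h4 := pow_eq_zero_iff (two_ne_zero) |>.1 h2
        rw [← h.2] at h4
        funext i
        fin_cases i
        · change a 0 = a' 0; linarith
        · exact h.1
        · exact h.2
    · refine Set.ncard_le_ncard_of_injOn (fun a => (a 0, a 2)) ?_ ?_ (Finset.finite_toSet _)
      · rintro a ⟨ha, -⟩
        rw [mem_box] at ha
        simp only [Finset.coe_product, Finset.coe_Icc, Set.mem_prod, Set.mem_Icc]
        exact ⟨abs_le.1 (ha 0), abs_le.1 (ha 2)⟩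
      · rintro a ⟨-, ha⟩ a' ⟨-, ha'⟩ h
        simp only [Prod.mk.injEq] at h
        rw [Rel4] at ha ha'
        rw [← h.1, ← h.2, ← ha] at ha'
        have h5 := mul_left_cancel₀ hΔ ha'
        funext i
        fin_cases i
        · exact h.1
        · change a 1 = a' 1; linarith
        · exact h.2
  rw [Set.ncard_coe_finset, hcard] at key
  rw [cnt]
  calc (({a | a ∈ box 3 H ∧ Rel4 b u a}.ncard : ℕ) : ℝ) ≤ (((2 * H + 1) ^ 2 : ℕ) : ℝ) := by
        exact_mod_cast key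
    _ = _ := by push_cast; ring

lemma cnt_big (hI : T_I4B) (b : ℤ) : ∃ K : ℝ, ∀ (u d v : ℤ) (H : ℕ), 2 ≤ H →
    |u| ≤ 20 * (H + |b|) → 1 ≤ d → Squarefree d → 1 ≤ v → u ^ 2 - 4 * b = d * v ^ 2 →
    cnt 3 H (Rel4 b u) ≤ K * (H + H * Real.log H / Real.sqrt d) := by
  classical
  obtain ⟨K, hK⟩ := hI (84 + 80 * |(b : ℝ)|) (by have := abs_nonneg (b : ℝ); linarith)
  refine ⟨K, ?_⟩
  intro u d v H hH hu hd hsf hv hΔ
  refine le_trans ?_ (hK d H hd hH)
  rw [cnt]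
  have hdv : 0 < d * v := by positivity
  -- the parametrisation
  have hpar : ∀ a : Fin 3 → ℤ, Rel4 b u a → ∃ w : ℤ, 2 * a 0 - u * a 2 = (d * v) * w ∧
      a 2 ^ 2 - 4 * a 1 + 4 * u = d * w ^ 2 := by
    intro a ha
    have h1 := rel_sq ha
    rw [hΔ] at h1
    have h2 : v ^ 2 ∣ (2 * a 0 - u * a 2) ^ 2 := ⟨d * (a 2 ^ 2 - 4 * a 1 + 4 * u), by
      rw [h1]; ring⟩
    obtain ⟨t, ht⟩ := (Int.pow_dvd_pow_iff two_ne_zero).1 h2
    have hv2 : v ^ 2 ≠ 0 := by positivity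
    have h3 : t ^ 2 = d * (a 2 ^ 2 - 4 * a 1 + 4 * u) := by
      apply mul_left_cancel₀ hv2
      rw [ht] at h1
      linarith
    have h4 : d ∣ t := (hsf.dvd_pow_iff_dvd two_ne_zero).1 ⟨_, h3⟩
    obtain ⟨w, rfl⟩ := h4
    refine ⟨w, by rw [ht]; ring, ?_⟩
    apply mul_left_cancel₀ (show d ≠ 0 by omega)
    rw [← h3]; ring
  choose! w hw1 hw2 using hpar
  have hfin : {x : ℤ × ℤ | |x.1| ≤ (H : ℤ) ∧ |((d * x.2 ^ 2 - x.1 ^ 2 : ℤ) : ℝ)| ≤
      (84 + 80 * |(b : ℝ)|) * H}.Finite := by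
    set M : ℤ := (84 + 80 * |b|) * H + H ^ 2 with hM
    refine ((Set.finite_Icc (-(H : ℤ)) H).prod (Set.finite_Icc (-M) M)).subset ?_
    rintro ⟨x, y⟩ ⟨h1, h2⟩
    refine ⟨abs_le.1 h1, ?_⟩
    have h3 : |d * y ^ 2 - x ^ 2| ≤ (84 + 80 * |b|) * H := by
      have : (((|d * y ^ 2 - x ^ 2| : ℤ)) : ℝ) ≤ (((84 + 80 * |b|) * H : ℤ) : ℝ) := by
        push_cast
        push_cast at h2
        exact h2
      exact_mod_cast this
    have h4 : x ^ 2 ≤ (H : ℤ) ^ 2 := by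
      rw [← sq_abs x]
      exact pow_le_pow_left₀ (abs_nonneg x) h1 2
    have h5 : d * y ^ 2 ≤ M := by
      have := (abs_le.1 h3).2
      simp only [hM]; linarith
    have h6 : y ^ 2 ≤ M := le_trans (by nlinarith [sq_nonneg y]) h5
    have h7 : |y| ≤ y ^ 2 := by
      rw [← sq_abs y]
      rcases (abs_nonneg y).eq_or_lt with h | h
      · rw [← h]; norm_num
      · nlinarith
    exact abs_le.1 (h7.trans h6)
  have key := Set.ncard_le_ncard_of_injOn (s := {a | a ∈ box 3 H ∧ Rel4 b u a}) (t := _)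
    (fun a => (a 2, w a)) (?_) (?_) hfin
  · exact_mod_cast key
  · rintro a ⟨ha, hrel⟩
    rw [mem_box] at ha
    refine ⟨ha 2, ?_⟩
    change |((d * (w a) ^ 2 - (a 2) ^ 2 : ℤ) : ℝ)| ≤ _
    have h1 : d * (w a) ^ 2 - (a 2) ^ 2 = 4 * u - 4 * a 1 := by rw [← hw2 a hrel]; ring
    rw [h1]
    have h2 : |4 * u - 4 * a 1| ≤ (84 + 80 * |b|) * H := by
      have h3 : |4 * u - 4 * a 1| ≤ 4 * |u| + 4 * |a 1| := by
        refine (abs_sub _ _).trans ?_
        rw [abs_mul, abs_mul]; norm_num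
      have h4 := ha 1
      have h5 : |b| ≤ |b| * H := by
        have : (1 : ℤ) ≤ H := by omega
        nlinarith [abs_nonneg b]
      nlinarith
    have : (((|4 * u - 4 * a 1| : ℤ)) : ℝ) ≤ (((84 + 80 * |b|) * H : ℤ) : ℝ) := by exact_mod_cast h2
    push_cast at this ⊢
    exact this
  · rintro a ⟨-, ha⟩ a' ⟨-, ha'⟩ h
    simp only [Prod.mk.injEq] at h
    have e1 := hw1 a ha
    have e2 := hw2 a ha
    have e1' := hw1 a' ha'
    have e2' := hw2 a' ha'
    rw [← h.1, ← h.2] at e1' e2'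
    funext i
    fin_cases i
    · change a 0 = a' 0; linarith
    · change a 1 = a' 1; linarith
    · exact h.1

/-- squarefree part -/
lemma exists_sf {b u : ℤ} (hb0 : b ≠ 0) (hu : 4 * |b| + 4 < |u|) :
    ∃ d v : ℤ, 2 ≤ d ∧ Squarefree d ∧ 1 ≤ v ∧ u ^ 2 - 4 * b = d * v ^ 2 := by
  have hb := abs_nonneg b
  have hb1 := le_abs_self b
  have hb2 := neg_abs_le b
  have hsq : |u| ^ 2 = u ^ 2 := sq_abs u
  have hpos : 0 < u ^ 2 - 4 * b := by nlinarith
  obtain ⟨n, hn⟩ : ∃ n : ℕ, (n : ℤ) = u ^ 2 - 4 * b := ⟨(u ^ 2 - 4 * b).toNat, Int.toNat_of_nonneg hpos.le⟩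
  obtain ⟨a, v, hav, hsf⟩ := Nat.sq_mul_squarefree n
  have hn0 : 0 < n := by omega
  have hv0 : v ≠ 0 := by rintro rfl; simp at hav; omega
  have ha0 : a ≠ 0 := by rintro rfl; simp at hav; omega
  have heq : u ^ 2 - 4 * b = (a : ℤ) * (v : ℤ) ^ 2 := by
    rw [← hn, ← hav]; push_cast; ring
  refine ⟨a, v, ?_, Int.squarefree_natCast.2 hsf, by omega, heq⟩
  by_contra hlt
  have ha1 : a = 1 := by omega
  rw [ha1, Nat.cast_one, one_mul] at heq
  have hvpos : (0 : ℤ) ≤ v := by positivity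
  -- u² - v² = 4 b
  have h1 : (|u| - v) * (|u| + v) = 4 * b := by
    have : (|u| - v) * (|u| + v) = |u| ^ 2 - (v : ℤ) ^ 2 := by ring
    rw [this, hsq]; linarith
  rcases lt_trichotomy (|u| - v) 0 with h | h | h
  · have : (|u| - v) * (|u| + v) ≤ -1 * (|u| + v) := by
      apply mul_le_mul_of_nonneg_right (by omega); positivity
    linarith
  · rw [h, zero_mul] at h1
    exact hb0 (by linarith)
  · have : 1 * (|u| + v) ≤ (|u| - v) * (|u| + v) := by
      apply mul_le_mul_of_nonneg_right (by omega); positivity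
    linarith

lemma log_bound {H : ℕ} (hH : 1 ≤ H) : (1 + Real.log H) ^ 4 ≤ 256 * H := by
  have hH' : (1 : ℝ) ≤ H := by exact_mod_cast hH
  have hL : 0 ≤ Real.log H := Real.log_nonneg hH'
  have h1 : 1 + Real.log H ≤ 4 * Real.exp (Real.log H / 4) := by
    have := Real.add_one_le_exp (Real.log H / 4)
    linarith
  calc (1 + Real.log H) ^ 4 ≤ (4 * Real.exp (Real.log H / 4)) ^ 4 :=
        pow_le_pow_left₀ (by positivity) h1 4
    _ = 256 * Real.exp (4 * (Real.log H / 4)) := by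
        rw [mul_pow, ← Real.exp_nat_mul]; norm_num
    _ = 256 * H := by
        rw [mul_div_cancel₀ _ (by norm_num : (4 : ℝ) ≠ 0), Real.exp_log (by linarith)]

theorem i4c (hP : T_PELL) (hI : T_I4B) : T_I4C := by
  classical
  intro b hb
  obtain ⟨KP₀, hKP₀⟩ := hP b hb
  obtain ⟨KB₀, hKB₀⟩ := cnt_big hI b
  set KP := max KP₀ 0 with hKP
  set KB := max KB₀ 0 with hKB
  have hKPn : 0 ≤ KP := le_max_right _ _
  have hKBn : 0 ≤ KB := le_max_right _ _
  set c₁ : ℝ := 20 * (1 + b.natAbs) with hc₁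
  have hc₁p : 0 ≤ c₁ := by positivity
  set K₁ : ℝ := 9 * (2 * (4 * b.natAbs + 4) + 1) with hK₁
  set K₂ : ℝ := 2 * KB * (41 * (1 + b.natAbs)) with hK₂
  set K₃ : ℝ := KP * KB * (1 + c₁) * 256 with hK₃
  have hK₁p : 0 ≤ K₁ := by positivity
  have hK₂p : 0 ≤ K₂ := by positivity
  have hK₃p : 0 ≤ K₃ := by positivity
  refine ⟨27 + K₁ + K₂ + K₃, ?_⟩
  intro H hH
  have hH' : (1 : ℝ) ≤ H := by exact_mod_cast hH
  rcases hH.eq_or_lt with h1 | hH2
  · refine (cnt_le_card 3 H _).trans ?_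
    rw [← h1]
    norm_num
    linarith
  have hH2' : 2 ≤ H := hH2
  set U : ℕ := 20 * (H + b.natAbs) with hU
  set s : Finset ℤ := Finset.Icc (-(U : ℤ)) U with hs
  have hbabs : |b| = (b.natAbs : ℤ) := Int.abs_eq_natAbs b
  have hbabsR : |(b : ℝ)| = (b.natAbs : ℝ) := by
    rw [← Int.cast_abs, hbabs, Int.cast_natCast]
  have hstep1 : cnt 3 H (fun a => ∃ u : ℤ, |(u : ℝ)| ≤ 20 * (H + |(b : ℝ)|) ∧
      (u ^ 2 - 4 * b) * (a 1 - u) = u * a 0 * a 2 - b * a 2 ^ 2 - a 0 ^ 2) ≤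
      ∑ u ∈ s, cnt 3 H (Rel4 b u) := by
    refine le_trans (cnt_mono ?_) (cnt_exists_le s (fun u => Rel4 b u))
    rintro a - ⟨u, hu, hrel⟩
    refine ⟨u, ?_, hrel⟩
    rw [hs, Finset.mem_Icc, ← abs_le]
    have : (((|u| : ℤ)) : ℝ) ≤ ((U : ℤ) : ℝ) := by
      rw [hU]; push_cast; exact hu
    exact_mod_cast this
  refine hstep1.trans ?_
  set L := Real.log H with hL
  have hLn : 0 ≤ L := Real.log_nonneg hH'
  -- squarefree parts
  have hex : ∀ u : ℤ, ∃ x : ℤ × ℤ, 4 * |b| + 4 < |u| → 2 ≤ x.1 ∧ Squarefree x.1 ∧ 1 ≤ x.2 ∧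
      u ^ 2 - 4 * b = x.1 * x.2 ^ 2 := by
    intro u
    by_cases h : 4 * |b| + 4 < |u|
    · obtain ⟨d, v, h1, h2, h3, h4⟩ := exists_sf hb h
      exact ⟨(d, v), fun _ => ⟨h1, h2, h3, h4⟩⟩
    · exact ⟨(0, 0), fun h' => absurd h' h⟩
  choose x hx using hex
  set s₀ := s.filter (fun u => |u| ≤ 4 * |b| + 4) with hs₀
  set s₁ := s.filter (fun u => ¬ |u| ≤ 4 * |b| + 4) with hs₁
  set s₂ := s₁.filter (fun u => L ^ 2 ≤ ((x u).1 : ℝ)) with hs₂
  set s₃ := s₁.filter (fun u => ¬ L ^ 2 ≤ ((x u).1 : ℝ)) with hs₃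
  have hsplit : ∑ u ∈ s, cnt 3 H (Rel4 b u) = ∑ u ∈ s₀, cnt 3 H (Rel4 b u) +
      (∑ u ∈ s₂, cnt 3 H (Rel4 b u) + ∑ u ∈ s₃, cnt 3 H (Rel4 b u)) := by
    rw [hs₂, hs₃, Finset.sum_filter_add_sum_filter_not, hs₀, hs₁,
      Finset.sum_filter_add_sum_filter_not]
  -- the bound for one `u`
  have hone : ∀ u ∈ s₁, cnt 3 H (Rel4 b u) ≤ KB * (H + H * L / Real.sqrt ((x u).1 : ℝ)) := by
    intro u hu
    obtain ⟨h1, h2⟩ := Finset.mem_filter.1 hu
    push Not at h2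
    obtain ⟨h3, h4, h5, h6⟩ := hx u h2
    have h7 : |u| ≤ 20 * (H + |b|) := by
      rw [hs, Finset.mem_Icc, ← abs_le, hU] at h1
      rw [hbabs]
      exact_mod_cast h1
    refine (hKB₀ u _ _ H hH2' h7 (by omega) h4 h5 h6).trans ?_
    refine mul_le_mul_of_nonneg_right (le_max_left _ _) ?_
    positivity
  -- part 0
  have hp0 : ∑ u ∈ s₀, cnt 3 H (Rel4 b u) ≤ K₁ * (H : ℝ) ^ 2 := by
    have hc : (s₀.card : ℝ) ≤ 2 * (4 * b.natAbs + 4) + 1 := by
      have h1 : s₀ ⊆ Finset.Icc (-(4 * |b| + 4)) (4 * |b| + 4) := by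
        intro u hu
        rw [Finset.mem_Icc]
        exact abs_le.1 (Finset.mem_filter.1 hu).2
      have h2 := Finset.card_le_card h1
      rw [Int.card_Icc, hbabs] at h2
      have h3 : s₀.card ≤ 2 * (4 * b.natAbs + 4) + 1 := by omega
      exact_mod_cast h3
    calc ∑ u ∈ s₀, cnt 3 H (Rel4 b u) ≤ ∑ _u ∈ s₀, (2 * (H : ℝ) + 1) ^ 2 :=
          Finset.sum_le_sum fun u _ => cnt_all b u H
      _ = s₀.card * (2 * (H : ℝ) + 1) ^ 2 := by rw [Finset.sum_const, nsmul_eq_mul]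
      _ ≤ (2 * (4 * b.natAbs + 4) + 1) * (9 * (H : ℝ) ^ 2) := by
          refine mul_le_mul hc ?_ (by positivity) (by positivity)
          nlinarith
      _ = K₁ * (H : ℝ) ^ 2 := by rw [hK₁]; ring
  -- part 2
  have hcs : (s.card : ℝ) ≤ 41 * (1 + b.natAbs) * H := by
    have h1 : s.card = 2 * U + 1 := by
      rw [hs, Int.card_Icc]; omega
    rw [h1, hU]
    push_cast
    have hbn : (0 : ℝ) ≤ (b.natAbs : ℝ) := Nat.cast_nonneg _
    nlinarith
  have hp2 : ∑ u ∈ s₂, cnt 3 H (Rel4 b u) ≤ K₂ * (H : ℝ) ^ 2 := by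
    have hc : (s₂.card : ℝ) ≤ s.card := by
      exact_mod_cast Finset.card_le_card ((Finset.filter_subset _ _).trans (Finset.filter_subset _ _))
    have hb2 : ∀ u ∈ s₂, cnt 3 H (Rel4 b u) ≤ KB * (2 * H) := by
      intro u hu
      obtain ⟨h1, h2⟩ := Finset.mem_filter.1 hu
      refine (hone u h1).trans (mul_le_mul_of_nonneg_left ?_ hKBn)
      obtain ⟨h3, h4⟩ := Finset.mem_filter.1 h1
      push Not at h4
      have hd : (2 : ℝ) ≤ ((x u).1 : ℝ) := by exact_mod_cast (hx u h4).1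
      have hsq : 0 < Real.sqrt ((x u).1 : ℝ) := Real.sqrt_pos.2 (by linarith)
      have hle : L ≤ Real.sqrt ((x u).1 : ℝ) := Real.le_sqrt_of_sq_le h2
      have : (H : ℝ) * L / Real.sqrt ((x u).1 : ℝ) ≤ H := by
        rw [div_le_iff₀ hsq]
        exact mul_le_mul_of_nonneg_left hle (by positivity)
      linarith
    calc ∑ u ∈ s₂, cnt 3 H (Rel4 b u) ≤ ∑ _u ∈ s₂, KB * (2 * H) := Finset.sum_le_sum hb2
      _ = s₂.card * (KB * (2 * H)) := by rw [Finset.sum_const, nsmul_eq_mul]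
      _ ≤ (41 * (1 + b.natAbs) * H) * (KB * (2 * H)) := by
          refine mul_le_mul_of_nonneg_right (hc.trans hcs) (by positivity)
      _ = K₂ * (H : ℝ) ^ 2 := by rw [hK₂]; ring
  -- part 3
  have hUlog : 1 + Real.log U ≤ (1 + c₁) * (1 + L) := by
    have h1 : (U : ℝ) ≤ c₁ * H := by
      rw [hU, hc₁]
      push_cast
      have hbn : (0 : ℝ) ≤ (b.natAbs : ℝ) := Nat.cast_nonneg _
      nlinarith
    have hUpos : (0 : ℝ) < U := by
      have : 0 < U := by omega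
      exact_mod_cast this
    have hc₁pos : 0 < c₁ := by positivity
    have h2 : Real.log U ≤ Real.log c₁ + L := by
      rw [hL, ← Real.log_mul hc₁pos.ne' (by positivity)]
      exact Real.log_le_log hUpos h1
    have h3 : Real.log c₁ ≤ c₁ := (Real.log_le_sub_one_of_pos hc₁pos).trans (by linarith)
    nlinarith
  have hp3 : ∑ u ∈ s₃, cnt 3 H (Rel4 b u) ≤ K₃ * (H : ℝ) ^ 2 := by
    have hb3 : ∀ u ∈ s₃, cnt 3 H (Rel4 b u) ≤ KB * (H * (1 + L)) := by
      intro u hu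
      obtain ⟨h1, h2⟩ := Finset.mem_filter.1 hu
      refine (hone u h1).trans (mul_le_mul_of_nonneg_left ?_ hKBn)
      obtain ⟨h3, h4⟩ := Finset.mem_filter.1 h1
      push Not at h4
      have hd : (2 : ℝ) ≤ ((x u).1 : ℝ) := by exact_mod_cast (hx u h4).1
      have hsq : 1 ≤ Real.sqrt ((x u).1 : ℝ) := Real.le_sqrt_of_sq_le (by linarith)
      have : (H : ℝ) * L / Real.sqrt ((x u).1 : ℝ) ≤ H * L := by
        refine div_le_self (by positivity) hsq
      linarith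
    have hc3 : (s₃.card : ℝ) ≤ L ^ 2 * (KP * (1 + Real.log U)) := by
      set N : ℕ := ⌊L ^ 2⌋₊ with hN
      have hfin : ∀ d : ℤ, 2 ≤ d → {u : ℤ | |u| ≤ (U : ℤ) ∧ ∃ v : ℤ, u ^ 2 - 4 * b = d * v ^ 2}.Finite :=
        fun d hd => (hKP₀ d U hd (by omega)).1
      have hsub : s₃ ⊆ (Finset.Icc (2 : ℤ) N).biUnion (fun d => s.filter
          (fun u => ∃ v : ℤ, u ^ 2 - 4 * b = d * v ^ 2)) := by
        intro u hu
        obtain ⟨h1, h2⟩ := Finset.mem_filter.1 hu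
        obtain ⟨h3, h4⟩ := Finset.mem_filter.1 h1
        push Not at h4 h2
        obtain ⟨h5, h6, h7, h8⟩ := hx u h4
        refine Finset.mem_biUnion.2 ⟨(x u).1, Finset.mem_Icc.2 ⟨h5, ?_⟩,
          Finset.mem_filter.2 ⟨h3, _, h8⟩⟩
        have h9 : (((x u).1.toNat : ℕ) : ℤ) = (x u).1 := Int.toNat_of_nonneg (by omega)
        have h10 : (x u).1.toNat ≤ N := by
          rw [hN]
          apply Nat.le_floor
          have : (((x u).1.toNat : ℕ) : ℝ) = ((x u).1 : ℝ) := by exact_mod_cast h9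
          rw [this]; exact h2.le
        omega
      have hcd : ∀ d ∈ Finset.Icc (2 : ℤ) N, (((s.filter
          (fun u => ∃ v : ℤ, u ^ 2 - 4 * b = d * v ^ 2)).card : ℕ) : ℝ) ≤ KP * (1 + Real.log U) := by
        intro d hd
        have hd2 := (Finset.mem_Icc.1 hd).1
        have h1 := (hKP₀ d U hd2 (by omega)).2
        have h2 : {u : ℤ | |u| ≤ (U : ℤ) ∧ ∃ v : ℤ, u ^ 2 - 4 * b = d * v ^ 2}.ncard =
            (s.filter (fun u => ∃ v : ℤ, u ^ 2 - 4 * b = d * v ^ 2)).card := by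
          rw [← Set.ncard_coe_finset]
          congr 1
          ext u
          simp only [Set.mem_ofPred_eq, Finset.coe_filter, hs, Finset.mem_Icc, abs_le]
        rw [h2] at h1
        refine h1.trans (mul_le_mul_of_nonneg_right (le_max_left _ _) ?_)
        have := Real.log_natCast_nonneg U
        linarith
      have hlogU := Real.log_natCast_nonneg U
      calc (s₃.card : ℝ) ≤ (((Finset.Icc (2 : ℤ) N).biUnion (fun d => s.filter
          (fun u => ∃ v : ℤ, u ^ 2 - 4 * b = d * v ^ 2))).card : ℝ) := by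
            exact_mod_cast Finset.card_le_card hsub
        _ ≤ ((∑ d ∈ Finset.Icc (2 : ℤ) N, (s.filter
          (fun u => ∃ v : ℤ, u ^ 2 - 4 * b = d * v ^ 2)).card : ℕ) : ℝ) := by
            exact_mod_cast Finset.card_biUnion_le
        _ ≤ ∑ _d ∈ Finset.Icc (2 : ℤ) N, KP * (1 + Real.log U) := by
            push_cast
            exact Finset.sum_le_sum hcd
        _ = (Finset.Icc (2 : ℤ) N).card * (KP * (1 + Real.log U)) := by
            rw [Finset.sum_const, nsmul_eq_mul]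
        _ ≤ L ^ 2 * (KP * (1 + Real.log U)) := by
            refine mul_le_mul_of_nonneg_right ?_ (by positivity)
            have h1 : (Finset.Icc (2 : ℤ) N).card ≤ N := by
              rw [Int.card_Icc]; omega
            calc (((Finset.Icc (2 : ℤ) N).card : ℕ) : ℝ) ≤ N := by exact_mod_cast h1
              _ ≤ L ^ 2 := Nat.floor_le (by positivity)
    have hlogU := Real.log_natCast_nonneg U
    calc ∑ u ∈ s₃, cnt 3 H (Rel4 b u) ≤ ∑ _u ∈ s₃, KB * (H * (1 + L)) := Finset.sum_le_sum hb3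
      _ = s₃.card * (KB * (H * (1 + L))) := by rw [Finset.sum_const, nsmul_eq_mul]
      _ ≤ (L ^ 2 * (KP * (1 + Real.log U))) * (KB * (H * (1 + L))) :=
          mul_le_mul_of_nonneg_right hc3 (by positivity)
      _ ≤ ((1 + L) ^ 2 * (KP * ((1 + c₁) * (1 + L)))) * (KB * (H * (1 + L))) := by
          refine mul_le_mul_of_nonneg_right ?_ (by positivity)
          refine mul_le_mul ?_ (mul_le_mul_of_nonneg_left hUlog hKPn) (by positivity) (by positivity)
          exact pow_le_pow_left₀ hLn (by linarith) 2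
      _ = KP * KB * (1 + c₁) * ((1 + L) ^ 4) * H := by ring
      _ ≤ KP * KB * (1 + c₁) * (256 * H) * H := by
          refine mul_le_mul_of_nonneg_right ?_ (by positivity)
          exact mul_le_mul_of_nonneg_left (log_bound hH) (by positivity)
      _ = K₃ * (H : ℝ) ^ 2 := by rw [hK₃]; ring
  rw [hsplit]
  nlinarith [sq_nonneg (H : ℝ)]

end Pool.Agent.H69.GF
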