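import Pool.Agent.H7.GF.Targets3

set_option autoImplicit false

namespace Pool.Agent.H69.GF

open Polynomial Pool.Agent.H7.GF

lemma le_of_big {b d u v : ℤ} (hd : 2 ≤ d) (hu : 0 ≤ u) (hv : 4 * |b| ≤ v ^ 2)
    (h : u ^ 2 - 4 * b = d * v ^ 2) : v ≤ u := by
  have h1 : -|b| ≤ b := neg_abs_le b
  have h2 : v ^ 2 ≤ u ^ 2 := by nlinarith [sq_nonneg v]
  exact (abs_le_of_sq_le_sq' h2 hu).2

lemma pell_aux (b d : ℤ) (hb : b ≠ 0) (hd : 2 ≤ d) (j : ℕ) (A : Finset ℤ) (w : ℤ → ℤ)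
    (hA : ∀ u ∈ A, 0 ≤ u ∧ u ^ 2 - 4 * b = d * (w u) ^ 2 ∧ 2 ^ j ≤ w u ∧ w u < 2 ^ (j + 1) ∧
      4 * |b| ≤ (w u) ^ 2) : A.card ≤ 2 * (16 * b.natAbs + 1) := by
  classical
  rcases A.eq_empty_or_nonempty with rfl | ⟨u₁, hu₁⟩
  · simp
  obtain ⟨a1, a2, a3, a4, a5⟩ := hA u₁ hu₁
  have hV : (0 : ℤ) < 2 ^ j := by positivity
  set V : ℤ := 2 ^ j with hVdef
  set v₁ := w u₁ with hv₁
  have a4' : v₁ < 2 * V := by rw [pow_succ] at a4; linarith
  have hle₁ : v₁ ≤ u₁ := le_of_big hd a1 a5 a2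
  have hcard : ((Finset.Icc (-(8 * |b|)) (8 * |b|)) ×ˢ (Finset.univ : Finset Bool)).card =
      2 * (16 * b.natAbs + 1) := by
    rw [Finset.card_product, Int.card_Icc]
    simp only [Finset.card_univ, Fintype.card_bool]
    have : (8 * |b| + 1 - -(8 * |b|)).toNat = 16 * b.natAbs + 1 := by
      have : |b| = (b.natAbs : ℤ) := Int.abs_eq_natAbs b
      omega
    rw [this, mul_comm]
  rw [← hcard]
  refine Finset.card_le_card_of_injOn
    (fun u => (v₁ * u - u₁ * w u, decide (0 ≤ u₁ * u - d * v₁ * w u))) ?_ ?_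
  · intro u hu
    obtain ⟨b1, b2, b3, b4, b5⟩ := hA u hu
    have b4' : w u < 2 * V := by rw [pow_succ] at b4; linarith
    have hle : w u ≤ u := le_of_big hd b1 b5 b2
    simp only [Finset.coe_product, Finset.coe_univ, Set.mem_prod, Finset.mem_coe, Finset.mem_Icc,
      Set.mem_univ, and_true]
    have key : (v₁ * u - u₁ * w u) * (v₁ * u + u₁ * w u) = 4 * b * (v₁ ^ 2 - w u ^ 2) := by
      have e1 : u ^ 2 = 4 * b + d * w u ^ 2 := by linarith
      have e2 : u₁ ^ 2 = 4 * b + d * v₁ ^ 2 := by linarith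
      have : (v₁ * u - u₁ * w u) * (v₁ * u + u₁ * w u) = v₁ ^ 2 * u ^ 2 - u₁ ^ 2 * w u ^ 2 := by ring
      rw [this, e1, e2]; ring
    have hsum : 2 * V ^ 2 ≤ v₁ * u + u₁ * w u := by
      have c1 : V * V ≤ v₁ * u := mul_le_mul a3 (b3.trans hle) hV.le (hV.le.trans a3)
      have c2 : V * V ≤ u₁ * w u := mul_le_mul (a3.trans hle₁) b3 hV.le a1
      nlinarith
    have hdiff : |v₁ ^ 2 - w u ^ 2| ≤ 4 * V ^ 2 := by
      rw [abs_le]
      constructor
      · nlinarith [sq_nonneg v₁, mul_self_le_mul_self (hV.le.trans b3) b4'.le]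
      · nlinarith [sq_nonneg (w u), mul_self_le_mul_self (hV.le.trans a3) a4'.le]
    have habs : |v₁ * u - u₁ * w u| * (2 * V ^ 2) ≤ (8 * |b|) * (2 * V ^ 2) := by
      have hpos : 0 ≤ v₁ * u + u₁ * w u := by nlinarith [sq_nonneg V]
      calc |v₁ * u - u₁ * w u| * (2 * V ^ 2) ≤ |v₁ * u - u₁ * w u| * (v₁ * u + u₁ * w u) :=
            mul_le_mul_of_nonneg_left hsum (abs_nonneg _)
        _ = |(v₁ * u - u₁ * w u) * (v₁ * u + u₁ * w u)| := by
            rw [abs_mul, abs_of_nonneg hpos]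
        _ = 4 * |b| * |v₁ ^ 2 - w u ^ 2| := by rw [key, abs_mul, abs_mul]; simp
        _ ≤ 4 * |b| * (4 * V ^ 2) := mul_le_mul_of_nonneg_left hdiff (by positivity)
        _ = (8 * |b|) * (2 * V ^ 2) := by ring
    have : |v₁ * u - u₁ * w u| ≤ 8 * |b| := le_of_mul_le_mul_right habs (by positivity)
    exact abs_le.1 this
  · intro u hu u' hu' huu
    obtain ⟨b1, b2, b3, b4, b5⟩ := hA u hu
    obtain ⟨c1, c2, c3, c4, c5⟩ := hA u' hu'
    simp only [Prod.mk.injEq] at huu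
    obtain ⟨e1, e2⟩ := huu
    have X1 : (u₁ * u - d * v₁ * w u) ^ 2 = 16 * b ^ 2 + d * (v₁ * u - u₁ * w u) ^ 2 := by
      have e1 : u ^ 2 = 4 * b + d * w u ^ 2 := by linarith
      have e2 : u₁ ^ 2 = 4 * b + d * v₁ ^ 2 := by linarith
      have : (u₁ * u - d * v₁ * w u) ^ 2 - d * (v₁ * u - u₁ * w u) ^ 2 =
        (u₁ ^ 2 - d * v₁ ^ 2) * (u ^ 2 - d * w u ^ 2) := by ring
      have h3 : (u₁ ^ 2 - d * v₁ ^ 2) * (u ^ 2 - d * w u ^ 2) = 16 * b ^ 2 := by
        rw [e1, e2]; ring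
      linarith
    have X2 : (u₁ * u' - d * v₁ * w u') ^ 2 = 16 * b ^ 2 + d * (v₁ * u' - u₁ * w u') ^ 2 := by
      have e1 : u' ^ 2 = 4 * b + d * w u' ^ 2 := by linarith
      have e2 : u₁ ^ 2 = 4 * b + d * v₁ ^ 2 := by linarith
      have : (u₁ * u' - d * v₁ * w u') ^ 2 - d * (v₁ * u' - u₁ * w u') ^ 2 =
        (u₁ ^ 2 - d * v₁ ^ 2) * (u' ^ 2 - d * w u' ^ 2) := by ring
      have h3 : (u₁ ^ 2 - d * v₁ ^ 2) * (u' ^ 2 - d * w u' ^ 2) = 16 * b ^ 2 := by
        rw [e1, e2]; ring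
      linarith
    have hX : u₁ * u - d * v₁ * w u = u₁ * u' - d * v₁ * w u' := by
      have hsq : (u₁ * u - d * v₁ * w u) ^ 2 = (u₁ * u' - d * v₁ * w u') ^ 2 := by
        rw [X1, X2, e1]
      rcases sq_eq_sq_iff_eq_or_eq_neg.1 hsq with h | h
      · exact h
      · by_cases hs : 0 ≤ u₁ * u - d * v₁ * w u
        · have hs' : 0 ≤ u₁ * u' - d * v₁ * w u' := by
            have := e2.symm
            simp only [hs, decide_true, decide_eq_true_eq] at this
            exact this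
          linarith
        · have hs' : ¬ 0 ≤ u₁ * u' - d * v₁ * w u' := by
            have := e2.symm
            simp only [hs, decide_false, decide_eq_false_iff_not] at this
            exact this
          push Not at hs hs'
          linarith
    have hdv : (4 * b) * (w u - w u') = 0 := by
      have f1 : u₁ * (u - u') = d * v₁ * (w u - w u') := by linarith
      have f2 : v₁ * (u - u') = u₁ * (w u - w u') := by linarith
      have f3 : u₁ ^ 2 * (w u - w u') = d * v₁ ^ 2 * (w u - w u') := by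
        calc u₁ ^ 2 * (w u - w u') = u₁ * (u₁ * (w u - w u')) := by ring
          _ = u₁ * (v₁ * (u - u')) := by rw [f2]
          _ = v₁ * (u₁ * (u - u')) := by ring
          _ = v₁ * (d * v₁ * (w u - w u')) := by rw [f1]
          _ = _ := by ring
      have f4 : 4 * b = u₁ ^ 2 - d * v₁ ^ 2 := by linarith
      rw [f4]; linarith
    have hw : w u = w u' := by
      rcases mul_eq_zero.1 hdv with h | h
      · exfalso; exact hb (by linarith)
      · linarith
    have f2 : v₁ * (u - u') = 0 := by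
      have : v₁ * (u - u') = u₁ * (w u - w u') := by linarith
      rw [this, hw]; ring
    rcases mul_eq_zero.1 f2 with h | h
    · exfalso; linarith
    · linarith

lemma pell_pos (b d : ℤ) (hb : b ≠ 0) (hd : 2 ≤ d) (U : ℕ) (hU : 1 ≤ U) (A : Finset ℤ) (w : ℤ → ℤ)
    (hA : ∀ u ∈ A, 0 ≤ u ∧ u ≤ U ∧ 0 ≤ w u ∧ u ^ 2 - 4 * b = d * (w u) ^ 2) :
    A.card ≤ (16 * b.natAbs + 1) * (1 + 2 * (Nat.log 2 U + 1)) := by
  classical
  have hbabs : |b| = (b.natAbs : ℤ) := Int.abs_eq_natAbs b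
  have hb1 : 1 ≤ b.natAbs := Nat.one_le_iff_ne_zero.2 (by simpa using hb)
  set A₀ := A.filter fun u => w u ≤ 4 * b.natAbs with hA₀
  have h0 : A₀.card ≤ 16 * b.natAbs + 1 := by
    have : A₀.card ≤ (Finset.Icc (0 : ℤ) (4 * b.natAbs)).card := by
      refine Finset.card_le_card_of_injOn w ?_ ?_
      · intro u hu
        obtain ⟨h1, h2⟩ := Finset.mem_filter.1 hu
        have := hA u h1
        simp only [Finset.coe_Icc, Set.mem_Icc]
        exact ⟨this.2.2.1, h2⟩
      · intro u hu u' hu' h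
        obtain ⟨h1, h2⟩ := Finset.mem_filter.1 hu
        obtain ⟨h1', h2'⟩ := Finset.mem_filter.1 hu'
        obtain ⟨a1, a2, a3, a4⟩ := hA u h1
        obtain ⟨b1, b2, b3, b4⟩ := hA u' h1'
        rw [h] at a4
        have : u ^ 2 = u' ^ 2 := by linarith
        exact (sq_eq_sq₀ a1 b1).1 this
    rw [Int.card_Icc] at this
    omega
  have hcov : A ⊆ A₀ ∪ (Finset.range (Nat.log 2 U + 1)).biUnion
      (fun j => A.filter fun u => 4 * b.natAbs < w u ∧ Nat.log 2 (w u).toNat = j) := by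
    intro u hu
    by_cases h : w u ≤ 4 * b.natAbs
    · exact Finset.mem_union_left _ (Finset.mem_filter.2 ⟨hu, h⟩)
    · refine Finset.mem_union_right _ (Finset.mem_biUnion.2 ⟨Nat.log 2 (w u).toNat, ?_, ?_⟩)
      · obtain ⟨a1, a2, a3, a4⟩ := hA u hu
        rw [Finset.mem_range, Nat.lt_succ_iff]
        apply Nat.log_mono_right
        have hle : w u ≤ u := by
          refine le_of_big hd a1 ?_ a4
          push Not at h
          rw [hbabs]
          nlinarith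
        omega
      · push Not at h
        exact Finset.mem_filter.2 ⟨hu, h, rfl⟩
  have hj : ∀ j ∈ Finset.range (Nat.log 2 U + 1),
      (A.filter fun u => 4 * b.natAbs < w u ∧ Nat.log 2 (w u).toNat = j).card ≤
        2 * (16 * b.natAbs + 1) := by
    intro j _
    refine pell_aux b d hb hd j _ w ?_
    intro u hu
    obtain ⟨h1, h2, h3⟩ := Finset.mem_filter.1 hu
    obtain ⟨a1, a2, a3, a4⟩ := hA u h1
    have hne : (w u).toNat ≠ 0 := by omega
    have k1 := Nat.pow_log_le_self 2 hne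
    have k2 := Nat.lt_pow_succ_log_self (b := 2) (by norm_num) (w u).toNat
    rw [h3] at k1 k2
    have hw : ((w u).toNat : ℤ) = w u := Int.toNat_of_nonneg a3
    refine ⟨a1, a4, ?_, ?_, ?_⟩
    · rw [← hw]; exact_mod_cast k1
    · rw [← hw]; exact_mod_cast k2
    · rw [hbabs]; nlinarith
  calc A.card ≤ _ := Finset.card_le_card hcov
    _ ≤ A₀.card + _ := Finset.card_union_le _ _
    _ ≤ (16 * b.natAbs + 1) + (Nat.log 2 U + 1) * (2 * (16 * b.natAbs + 1)) := by
        refine add_le_add h0 ?_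
        have := Finset.card_biUnion_le_card_mul _ _ _ hj
        rwa [Finset.card_range] at this
    _ = _ := by ring

theorem pell : T_PELL := by
  classical
  intro b hb
  refine ⟨2 * ((16 * b.natAbs + 1) * 5), ?_⟩
  intro d U hd hU
  set S : Set ℤ := {u : ℤ | |u| ≤ (U : ℤ) ∧ ∃ v : ℤ, u ^ 2 - 4 * b = d * v ^ 2} with hS
  have hfin : S.Finite := by
    refine (Set.finite_Icc (-(U : ℤ)) U).subset ?_
    rintro u ⟨h1, -⟩
    exact abs_le.1 h1
  refine ⟨hfin, ?_⟩
  set P : Finset ℤ := hfin.toFinset.filter (fun u => 0 ≤ u) with hP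
  have hex : ∀ u : ℤ, ∃ v : ℤ, u ∈ P → 0 ≤ v ∧ u ^ 2 - 4 * b = d * v ^ 2 := by
    intro u
    by_cases hu : u ∈ P
    · obtain ⟨h1, h2⟩ := Finset.mem_filter.1 hu
      obtain ⟨h3, v, hv⟩ := hfin.mem_toFinset.1 h1
      exact ⟨|v|, fun _ => ⟨abs_nonneg v, by rw [sq_abs]; exact hv⟩⟩
    · exact ⟨0, fun h => absurd h hu⟩
  choose w hw using hex
  have hcard := pell_pos b d hb hd U hU P w (by
    intro u hu
    obtain ⟨h1, h2⟩ := Finset.mem_filter.1 hu
    obtain ⟨h3, -⟩ := hfin.mem_toFinset.1 h1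
    exact ⟨h2, (le_abs_self u).trans h3, (hw u hu).1, (hw u hu).2⟩)
  have hsub : S ⊆ ((P ∪ P.image (fun u => -u) : Finset ℤ) : Set ℤ) := by
    intro u hu
    rw [Finset.mem_coe, Finset.mem_union]
    rcases le_total 0 u with h | h
    · left
      exact Finset.mem_filter.2 ⟨hfin.mem_toFinset.2 hu, h⟩
    · right
      refine Finset.mem_image.2 ⟨-u, Finset.mem_filter.2 ⟨hfin.mem_toFinset.2 ?_, by linarith⟩, by simp⟩
      obtain ⟨h1, v, hv⟩ := hu
      exact ⟨by rwa [abs_neg], v, by rw [neg_sq]; exact hv⟩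
  have hnc : S.ncard ≤ 2 * P.card := by
    have h1 := Set.ncard_le_ncard hsub (Finset.finite_toSet _)
    rw [Set.ncard_coe_finset] at h1
    have h2 := Finset.card_union_le P (P.image (fun u => -u))
    have h3 : (P.image (fun u => -u)).card ≤ P.card := Finset.card_image_le
    omega
  have hlog : ((Nat.log 2 U : ℕ) : ℝ) ≤ 2 * Real.log U := by
    have h1 : (2 : ℝ) ^ (Nat.log 2 U) ≤ U := by exact_mod_cast Nat.pow_log_le_self 2 (by omega)
    have h2 := Real.log_le_log (by positivity) h1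
    rw [Real.log_pow] at h2
    have h3 : (1 / 2 : ℝ) ≤ Real.log 2 := by
      have := Real.log_two_gt_d9; linarith
    have h4 : (0 : ℝ) ≤ (Nat.log 2 U : ℕ) := Nat.cast_nonneg _
    nlinarith
  have hlog0 : 0 ≤ Real.log U := Real.log_natCast_nonneg U
  have hc1 : (S.ncard : ℝ) ≤ 2 * ((16 * b.natAbs + 1) * (1 + 2 * (Nat.log 2 U + 1)) : ℕ) := by
    exact_mod_cast hnc.trans (Nat.mul_le_mul_left 2 hcard)
  refine hc1.trans ?_
  push_cast
  have hB : (0 : ℝ) ≤ 16 * (b.natAbs : ℝ) + 1 := by positivity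
  have : (1 + 2 * ((Nat.log 2 U : ℕ) + 1) : ℝ) ≤ 5 * (1 + Real.log U) := by linarith
  calc (2 : ℝ) * ((16 * (b.natAbs : ℝ) + 1) * (1 + 2 * ((Nat.log 2 U : ℕ) + 1)))
      ≤ 2 * ((16 * (b.natAbs : ℝ) + 1) * (5 * (1 + Real.log U))) := by
        refine mul_le_mul_of_nonneg_left (mul_le_mul_of_nonneg_left this hB) (by norm_num)
    _ = _ := by push_cast; ring

end Pool.Agent.H69.GF
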