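import Pool.Agent.H7.GF.Targets1

set_option autoImplicit false

namespace Pool.Agent.H69.GF

open Polynomial NumberField Module Pool.Agent.H7.GF MulAction

/-- embeddings, as a type on which the Galois group acts -/
def Emb (F L : Type) [Field F] [NumberField F] [Field L] [NumberField L] : Type := F →ₐ[ℚ] L

variable {F L : Type} [Field F] [NumberField F] [Field L] [NumberField L]

instance embAct : MulAction (L ≃ₐ[ℚ] L) (Emb F L) where
  smul σ φ := (σ.toAlgHom.comp (φ : F →ₐ[ℚ] L) : F →ₐ[ℚ] L)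
  one_smul φ := AlgHom.ext fun _ => rfl
  mul_smul σ τ φ := AlgHom.ext fun _ => rfl

lemma emb_smul (σ : L ≃ₐ[ℚ] L) (φ : F →ₐ[ℚ] L) :
    (σ • (show Emb F L from φ) : Emb F L) = (σ.toAlgHom.comp φ : F →ₐ[ℚ] L) := rfl

instance embFinite : Finite (Emb F L) := inferInstanceAs (Finite (F →ₐ[ℚ] L))

lemma emb_trans [IsGalois ℚ L] : IsPretransitive (L ≃ₐ[ℚ] L) (Emb F L) := ⟨fun φ ψ => by
  let φ' : F →ₐ[ℚ] L := φ
  let ψ' : F →ₐ[ℚ] L := ψ
  let : Algebra F L := φ'.toRingHom.toAlgebra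
  have : IsScalarTower ℚ F L := IsScalarTower.of_algebraMap_eq (fun x => (φ'.commutes x).symm)
  let s : L →ₐ[ℚ] L := AlgHom.liftNormal ψ' L
  refine ⟨AlgEquiv.ofBijective s (AlgHom.normal_bijective ℚ L L _), ?_⟩
  refine AlgHom.ext fun x => ?_
  exact AlgHom.liftNormal_commutes ψ' L x⟩

/-- the stabiliser of an embedding is the fixing group of its image -/
lemma stab_eq (φ : F →ₐ[ℚ] L) : stabilizer (L ≃ₐ[ℚ] L) (show Emb F L from φ) =
    φ.fieldRange.fixingSubgroup := by
  ext σ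
  rw [mem_stabilizer_iff, IntermediateField.mem_fixingSubgroup_iff]
  constructor
  · intro h x hx
    obtain ⟨y, rfl⟩ := AlgHom.mem_fieldRange.1 hx
    exact DFunLike.congr_fun (show (σ.toAlgHom.comp φ : F →ₐ[ℚ] L) = φ from h) y
  · intro h
    exact AlgHom.ext fun x => h (φ x) ⟨x, rfl⟩

lemma emb_prim [IsGalois ℚ L] (hF : NoInt F) (φ ψ : F →ₐ[ℚ] L) (hφψ : φ ≠ ψ) :
    IsPreprimitive (L ≃ₐ[ℚ] L) (Emb F L) := by
  have := emb_trans (F := F) (L := L)
  have : Nontrivial (Emb F L) := ⟨⟨φ, ψ, hφψ⟩⟩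
  rw [← isCoatom_stabilizer_iff_preprimitive (L ≃ₐ[ℚ] L) (show Emb F L from φ), stab_eq]
  have hatom : IsAtom φ.fieldRange := by
    constructor
    · intro hbot
      apply hφψ
      refine AlgHom.ext fun x => ?_
      have hx : φ x ∈ (⊥ : IntermediateField ℚ L) := hbot ▸ (⟨x, rfl⟩ : φ x ∈ φ.fieldRange)
      obtain ⟨q, hq⟩ := IntermediateField.mem_bot.1 hx
      have : x = algebraMap ℚ F q := by
        apply φ.injective
        exact hq.symm.trans (φ.commutes q).symm
      rw [this, φ.commutes, ψ.commutes]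
    · intro K hK
      rcases hF (K.comap φ) with h | h
      · rw [eq_bot_iff]
        intro y hy
        obtain ⟨x, rfl⟩ := AlgHom.mem_fieldRange.1 (hK.le hy)
        have hx : x ∈ K.comap φ := hy
        rw [h] at hx
        obtain ⟨q, hq⟩ := IntermediateField.mem_bot.1 hx
        rw [IntermediateField.mem_bot]
        exact ⟨q, by rw [← hq, φ.commutes]⟩
      · exfalso
        apply hK.not_ge
        intro y hy
        obtain ⟨x, rfl⟩ := AlgHom.mem_fieldRange.1 hy
        have hx : x ∈ K.comap φ := by rw [h]; trivial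
        exact hx
  have h2 := (OrderIso.isAtom_iff (IsGalois.intermediateFieldEquivSubgroup (F := ℚ) (E := L))
    φ.fieldRange).2 hatom
  exact h2

theorem primg : T_PRIMG := by
  classical
  intro F L _ _ _ _ _ θ hdeg hF hspl ⟨σ, φ, ψ, hφψ, h1, h2, h3⟩
  have hprim := emb_prim hF φ ψ hφψ
  -- the minimal polynomial
  have hint : IsIntegral ℤ (θ : F) := θ.2
  have hmin : toQ (minpoly ℤ θ) = minpoly ℚ (θ : F) := by
    rw [minpoly.isIntegrallyClosed_eq_field_fractions' ℚ hint]
    have := minpoly.algebraMap_eq (RingOfIntegers.coe_injective (K := F)) θ (A := ℤ)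
    rw [← this]
    rfl
  have hsplit : ∀ x : F, ((minpoly ℚ x).map (algebraMap ℚ L)).Splits := by
    intro x
    have h4 := Normal.splits (inferInstance : Normal ℚ L) (φ x)
    rwa [minpoly.algHom_eq φ φ.injective] at h4
  have hadj := hspl.adjoin_rootSet'
  have hroot : ∀ x ∈ (toQ (minpoly ℤ θ)).rootSet L, ∃ χ : F →ₐ[ℚ] L, χ (θ : F) = x := by
    intro x hx
    rw [hmin, ← Algebra.IsAlgebraic.range_eval_eq_rootSet_minpoly_of_splits L hsplit (θ : F)] at hx
    exact hx
  -- faithful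
  have hfaith : Function.Injective (toPermHom (L ≃ₐ[ℚ] L) (Emb F L)) := by
    rw [injective_iff_map_eq_one]
    intro τ hτ
    have hτ' : ∀ χ : F →ₐ[ℚ] L, ∀ x, τ (χ x) = χ x := by
      intro χ x
      have := DFunLike.congr_fun hτ (show Emb F L from χ)
      exact DFunLike.congr_fun (show (τ.toAlgHom.comp χ : F →ₐ[ℚ] L) = χ from this) x
    have h5 : τ.toAlgHom = AlgHom.id ℚ L := by
      refine AlgHom.ext_of_adjoin_eq_top hadj ?_
      intro x hx
      obtain ⟨χ, rfl⟩ := hroot x hx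
      exact hτ' χ _
    exact AlgEquiv.ext fun x => DFunLike.congr_fun h5 x
  have hrange : (toPermHom (L ≃ₐ[ℚ] L) (Emb F L)).range = ⊤ := by
    have hp : IsPreprimitive (toPermHom (L ≃ₐ[ℚ] L) (Emb F L)).range (Emb F L) := by
      let f : (Emb F L) →ₑ[(toPermHom (L ≃ₐ[ℚ] L) (Emb F L)).rangeRestrict] (Emb F L) :=
        { toFun := id, map_smul' := fun _ _ => rfl }
      exact IsPreprimitive.of_surjective (f := f) Function.surjective_id
    refine Equiv.Perm.subgroup_eq_top_of_isPreprimitive_of_isSwap_mem hp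
      (toPermHom (L ≃ₐ[ℚ] L) (Emb F L) σ) ?_ ⟨σ, rfl⟩
    refine ⟨(show Emb F L from φ), (show Emb F L from ψ), hφψ, ?_⟩
    ext χ
    by_cases hχ : χ = (show Emb F L from φ)
    · rw [hχ, Equiv.swap_apply_left]; exact h1
    · by_cases hχ' : χ = (show Emb F L from ψ)
      · rw [hχ', Equiv.swap_apply_right]; exact h2
      · rw [Equiv.swap_apply_of_ne_of_ne hχ hχ']; exact h3 χ hχ hχ'
  have hcard : Nat.card (L ≃ₐ[ℚ] L) = (finrank ℚ F).factorial := by
    have h6 : Nat.card (Emb F L) = finrank ℚ F := AlgHom.natCard_of_splits ℚ F L hsplit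
    rw [← h6, ← Nat.card_perm, ← Subgroup.card_top (G := Equiv.Perm (Emb F L)), ← hrange]
    exact Nat.card_congr (MonoidHom.ofInjective hfaith).toEquiv
  rw [NonFull, not_not, ← hdeg, ← hcard]
  exact Nat.card_congr (AlgEquiv.autCongr (IsSplittingField.algEquiv L (toQ (minpoly ℤ θ)))).toEquiv.symm

end Pool.Agent.H69.GF
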