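import Pool.Agent.H7.GF.Targets2

set_option autoImplicit false

namespace Pool.Agent.H69.GF

open Polynomial Pool.Agent.H7.GF

theorem rts (h : T_CLS) : T_RTS := by
  intro K C S Δ hC hK hΔ
  have h1 := h 1 (fun _ => S) C (fun p => {x | (toZ p Δ).eval (x 0) = 0}) hC
  have hcard : {t : ℤ | |t| ≤ (S : ℤ) ∧ ∀ p, p.Prime → p ∣ C → (p : ℤ) ∣ Δ.eval t}.ncard =
      {a : Fin 1 → ℤ | (∀ i, |a i| ≤ (S : ℤ)) ∧ ∀ p, p.Prime → p ∣ C →
        red p a ∈ ({x | (toZ p Δ).eval (x 0) = 0} : Set (Fin 1 → ZMod p))}.ncard := by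
    refine Set.ncard_congr (fun t _ => fun _ => t) ?_ ?_ ?_
    · rintro t ⟨ht1, ht2⟩
      refine ⟨fun _ => ht1, fun p hp hpC => ?_⟩
      have h2 := ht2 p hp hpC
      rw [← ZMod.intCast_zmod_eq_zero_iff_dvd] at h2
      change (toZ p Δ).eval ((t : ℤ) : ZMod p) = 0
      rw [H7.GF.toZ, Polynomial.eval_intCast_map]
      simpa using h2
    · intro a b _ _ hab
      exact congrFun hab 0
    · rintro a ⟨ha1, ha2⟩
      refine ⟨a 0, ⟨ha1 0, fun p hp hpC => ?_⟩, ?_⟩
      · have h2 : (toZ p Δ).eval ((a 0 : ℤ) : ZMod p) = 0 := ha2 p hp hpC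
        rw [H7.GF.toZ, Polynomial.eval_intCast_map] at h2
        rw [← ZMod.intCast_zmod_eq_zero_iff_dvd]
        simpa using h2
      · funext i
        rw [Subsingleton.elim i 0]
  rw [hcard]
  refine h1.trans ?_
  have hprod : (∏ i : Fin 1, ((2 * (S : ℝ) + 1) / C + 1)) = (2 * (S : ℝ) + 1) / C + 1 := by simp
  rw [hprod, mul_comm]
  have hpos : 0 ≤ (2 * (S : ℝ) + 1) / C + 1 := by positivity
  refine mul_le_mul_of_nonneg_right ?_ hpos
  rw [om, ← Finset.prod_const]
  refine Finset.prod_le_prod (fun _ _ => Nat.cast_nonneg _) fun p hp => ?_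
  have hp' := Nat.mem_primeFactors.1 hp
  have : Fact p.Prime := ⟨hp'.1⟩
  have h3 : {x : Fin 1 → ZMod p | (toZ p Δ).eval (x 0) = 0}.ncard ≤
      ((toZ p Δ).roots.toFinset : Set (ZMod p)).ncard := by
    refine Set.ncard_le_ncard_of_injOn (fun x => x 0) ?_ ?_ (Finset.finite_toSet _)
    · intro x hx
      simp only [Finset.mem_coe, Multiset.mem_toFinset]
      rw [mem_roots (hΔ p hp'.1 hp'.2.1)]
      exact hx
    · intro x _ y _ hxy
      funext i
      rw [Subsingleton.elim i 0]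
      exact hxy
  have h4 : ((toZ p Δ).roots.toFinset : Set (ZMod p)).ncard ≤ K := by
    rw [Set.ncard_coe_finset]
    refine (Multiset.toFinset_card_le _).trans ?_
    refine (card_roots' _).trans ?_
    exact (natDegree_map_le).trans hK
  exact_mod_cast h3.trans h4

end Pool.Agent.H69.GF
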